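import Pool.Agent.H933.LL.Stm8

/-!
# P_graph: quasi-hyperbolic cost for the complement of the graph of a Hölder function (helper295)
-/

set_option autoImplicit false

open MeasureTheory Metric
open scoped Real ENNReal

namespace Pool.Agent.H295.LL

open Pool.Agent.H933.LL

namespace GraphAux

/-- the graph -/
def Gr (φ : ℝ → ℝ) : Set ℂ := {z : ℂ | z.im = φ z.re}

theorem gr_nonempty (φ : ℝ → ℝ) : (Gr φ).Nonempty := ⟨⟨0, φ 0⟩, rfl⟩

/-- a Hölder function is continuous -/
theorem cont {φ : ℝ → ℝ} {L α : ℝ} (hα : 0 < α) (hφ : ∀ s t : ℝ, |φ s - φ t| ≤ L * |s - t| ^ α) :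
    Continuous φ := by
  rw [continuous_iff_continuousAt]
  intro t
  rw [ContinuousAt, tendsto_iff_dist_tendsto_zero]
  have h1 : Continuous fun s : ℝ => L * |s - t| ^ α :=
    continuous_const.mul ((continuous_abs.comp (continuous_id.sub continuous_const)).rpow_const
      (fun _ => Or.inr hα.le))
  have h2 := h1.tendsto t
  simp only [sub_self, abs_zero, Real.zero_rpow hα.ne', mul_zero] at h2
  refine squeeze_zero (fun _ => dist_nonneg) (fun s => ?_) h2
  rw [Real.dist_eq]
  exact hφ s t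

theorem gr_closed {φ : ℝ → ℝ} (hc : Continuous φ) : IsClosed (Gr φ) :=
  isClosed_eq Complex.continuous_im (hc.comp Complex.continuous_re)

theorem gr_null {φ : ℝ → ℝ} (hc : Continuous φ) : volume (Gr φ) = 0 := by
  have h1 : Gr φ = Complex.measurableEquivRealProd ⁻¹' {w : ℝ × ℝ | w.2 = φ w.1} := by
    ext z
    simp [Gr, Complex.measurableEquivRealProd_apply]
  have h2 : MeasurableSet {w : ℝ × ℝ | w.2 = φ w.1} :=
    (isClosed_eq continuous_snd (hc.comp continuous_fst)).measurableSet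
  rw [h1, Complex.volume_preserving_equiv_real_prod.measure_preimage h2.nullMeasurableSet,
    Measure.volume_eq_prod, Measure.measure_prod_null h2]
  refine Filter.Eventually.of_forall fun x => ?_
  have h3 : Prod.mk x ⁻¹' {w : ℝ × ℝ | w.2 = φ w.1} = {φ x} := by
    ext y
    simp
  show volume (Prod.mk x ⁻¹' {w : ℝ × ℝ | w.2 = φ w.1}) = 0
  rw [h3]
  simp

/-- the lower bound of the distance in terms of the height -/
noncomputable def dl (L p t : ℝ) : ℝ := (min t 1 / (1 + L)) ^ p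

theorem dl_mono {L p t t' : ℝ} (hL : 0 ≤ L) (hp : 0 < p) (ht : 0 ≤ t) (h : t ≤ t') :
    dl L p t ≤ dl L p t' := by
  unfold dl
  have h1 : 0 ≤ min t 1 := le_min ht zero_le_one
  have h2 : min t 1 ≤ min t' 1 := min_le_min_right _ h
  exact Real.rpow_le_rpow (by positivity) (by gcongr) hp.le

theorem dl_pos {L p t : ℝ} (hL : 0 ≤ L) (ht : 0 < t) : 0 < dl L p t := by
  unfold dl
  have h1 : 0 < min t 1 := lt_min ht zero_lt_one
  positivity

theorem dl_le {L p t : ℝ} (hL : 0 ≤ L) (hp : 1 ≤ p) (ht : 0 ≤ t) : dl L p t ≤ min t 1 := by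
  unfold dl
  have h1 : 0 ≤ min t 1 := le_min ht zero_le_one
  have h2 : min t 1 / (1 + L) ≤ min t 1 := div_le_self h1 (by linarith)
  have h3 : min t 1 / (1 + L) ≤ 1 := h2.trans (min_le_right _ _)
  calc (min t 1 / (1 + L)) ^ p ≤ (min t 1 / (1 + L)) ^ (1 : ℝ) :=
        Real.rpow_le_rpow_of_exponent_ge_of_imp (by positivity) h3 hp (by
          intro _ h; linarith)
    _ ≤ min t 1 := by rw [Real.rpow_one]; exact h2

theorem dist_low {φ : ℝ → ℝ} {L α : ℝ} (hL : 0 ≤ L) (hα : 0 < α) (hα1 : α ≤ 1)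
    (hφ : ∀ s t : ℝ, |φ s - φ t| ≤ L * |s - t| ^ α) (z : ℂ) :
    dl L (1 / α) |z.im - φ z.re| ≤ infDist z (Gr φ) := by
  rw [le_infDist (gr_nonempty φ)]
  intro y hy
  have hy' : y.im = φ y.re := hy
  have hp1 : 1 ≤ 1 / α := by rw [le_div_iff₀ hα]; linarith
  set s := dist z y with hs
  have hs0 : 0 ≤ s := dist_nonneg
  have hle := dl_le hL hp1 (abs_nonneg (z.im - φ z.re))
  rcases le_or_gt 1 s with h1 | h1
  · exact (hle.trans (min_le_right _ _)).trans h1
  have hre : |z.re - y.re| ≤ s := by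
    rw [hs, Complex.dist_eq, ← Complex.sub_re]
    exact Complex.abs_re_le_norm _
  have him : |z.im - y.im| ≤ s := by
    rw [hs, Complex.dist_eq, ← Complex.sub_im]
    exact Complex.abs_im_le_norm _
  have h2 : |z.im - φ z.re| ≤ s + L * s ^ α := by
    have h3 : z.im - φ z.re = (z.im - y.im) + (φ y.re - φ z.re) := by rw [hy']; ring
    rw [h3]
    refine (abs_add_le _ _).trans (add_le_add him ((hφ _ _).trans ?_))
    rw [abs_sub_comm]
    gcongr
  have h4 : s ≤ s ^ α := by
    calc s = s ^ (1 : ℝ) := (Real.rpow_one s).symm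
      _ ≤ s ^ α := Real.rpow_le_rpow_of_exponent_ge_of_imp hs0 h1.le hα1 (by
          intro _ h; linarith)
  have h5 : |z.im - φ z.re| / (1 + L) ≤ s ^ α := by
    rw [div_le_iff₀ (by positivity)]
    linarith
  have h6 : min |z.im - φ z.re| 1 / (1 + L) ≤ s ^ α :=
    (div_le_div_of_nonneg_right (min_le_left _ _) (by positivity)).trans h5
  unfold dl
  calc (min |z.im - φ z.re| 1 / (1 + L)) ^ (1 / α) ≤ (s ^ α) ^ (1 / α) := by
        have h7 : 0 ≤ min |z.im - φ z.re| 1 := le_min (abs_nonneg _) zero_le_one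
        exact Real.rpow_le_rpow (by positivity) h6 (by positivity)
    _ = s := by
        rw [← Real.rpow_mul hs0, mul_one_div_cancel hα.ne', Real.rpow_one]

/-- the cost of a point -/
theorem cost_le {L p ε : ℝ} (hL : 0 ≤ L) (hp : 1 ≤ p) (hε : 0 < ε) {t d : ℝ} (ht : 0 < t)
    (hd : dl L p t ≤ d) :
    1 + Real.posLog d⁻¹ ≤ (1 + p * Real.log (1 + L) + p / ε) * (min t 1) ^ (-ε) := by
  set m := min t 1 with hm
  have hm0 : 0 < m := lt_min ht zero_lt_one
  have hm1 : m ≤ 1 := min_le_right _ _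
  have hdl : 0 < dl L p t := dl_pos hL ht
  have h1 : 1 ≤ m ^ (-ε) := Real.one_le_rpow_of_pos_of_le_one_of_nonpos hm0 hm1 (by linarith)
  have h2 : Real.posLog d⁻¹ ≤ Real.posLog (dl L p t)⁻¹ :=
    Real.posLog_le_posLog (inv_nonneg.2 (hdl.le.trans hd)) (inv_anti₀ hdl hd)
  have h3 : Real.posLog (dl L p t)⁻¹ = p * (Real.log (1 + L) + Real.log m⁻¹) := by
    have h4 : (dl L p t)⁻¹ = ((1 + L) * m⁻¹) ^ p := by
      unfold dl
      rw [← Real.inv_rpow (by positivity), inv_div, ← hm, div_eq_mul_inv]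
    have h5 : 1 ≤ (1 + L) * m⁻¹ := by
      have := (one_le_inv₀ hm0).2 hm1
      nlinarith
    rw [h4, Real.posLog_eq_log, Real.log_rpow (by positivity),
      Real.log_mul (by positivity) (by positivity)]
    rw [abs_of_nonneg (by positivity)]
    exact Real.one_le_rpow h5 (by linarith)
  have h6 : Real.log m⁻¹ ≤ m ^ (-ε) / ε := by
    have h7 := Real.log_le_rpow_div (inv_nonneg.2 hm0.le) hε
    rwa [Real.inv_rpow hm0.le, ← Real.rpow_neg hm0.le] at h7
  have h8 : 0 ≤ Real.log (1 + L) := Real.log_nonneg (by linarith)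
  calc 1 + Real.posLog d⁻¹ ≤ 1 + p * (Real.log (1 + L) + m ^ (-ε) / ε) := by
        rw [h3] at h2
        have : p * (Real.log (1 + L) + Real.log m⁻¹) ≤ p * (Real.log (1 + L) + m ^ (-ε) / ε) := by
          gcongr
        linarith
    _ = 1 * 1 + p * Real.log (1 + L) * 1 + p / ε * m ^ (-ε) := by ring
    _ ≤ 1 * m ^ (-ε) + p * Real.log (1 + L) * m ^ (-ε) + p / ε * m ^ (-ε) := by
        have : 0 ≤ p * Real.log (1 + L) := by positivity
        gcongr
    _ = _ := by ring

/-- the potential decreases by the cost -/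
theorem pot_le {L p s T t : ℝ} (hL : 0 ≤ L) (hs : 0 < s) (hs1 : s ≤ 1) (hp : p = 2 * s)
    (hp1 : 1 ≤ p) (hT : 1 ≤ T) (ht : 0 < t) (htT : t ≤ T) :
    (min t 1) ^ (-(1 - s)) ≤ 8 * (1 + L) ^ p * T ^ (s + 1) / s *
      (t ^ (-s) - (t + dl L p t / 4) ^ (-s)) := by
  set m := min t 1 with hm
  have hm0 : 0 < m := lt_min ht zero_lt_one
  have hm1 : m ≤ 1 := min_le_right _ _
  have hmt : m ≤ t := min_le_left _ _
  have hδ := dl_pos (p := p) hL ht
  have hδm : dl L p t ≤ m := dl_le hL hp1 ht.le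
  set δ := dl L p t with hδdef
  set x := δ / (4 * t) with hx
  have hx0 : 0 < x := by positivity
  have hx1 : x ≤ 1 := by
    rw [hx, div_le_one (by positivity)]
    linarith
  have ht' : t + δ / 4 = t * (1 + x) := by
    rw [hx]
    field_simp
  -- Bernoulli
  have h1 : (1 + x) ^ (-s) ≤ 1 - s * x / 2 := by
    have h2 : (1 + x) ^ (-s) = (1 + (-(x / (1 + x)))) ^ s := by
      rw [Real.rpow_neg (by positivity), ← Real.inv_rpow (by positivity)]
      congr 1
      field_simp
      ring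
    have h3 : x / (1 + x) ≤ 1 := by
      rw [div_le_one (by positivity)]
      linarith
    have h4 := rpow_one_add_le_one_add_mul_self (s := -(x / (1 + x))) (by linarith) hs.le hs1
    rw [h2]
    refine h4.trans ?_
    have h5 : x / 2 ≤ x / (1 + x) := by
      apply div_le_div_of_nonneg_left hx0.le (by positivity)
      linarith
    nlinarith
  have h6 : s * x / 2 * t ^ (-s) ≤ t ^ (-s) - (t + δ / 4) ^ (-s) := by
    rw [ht', Real.mul_rpow ht.le (by positivity)]
    have h7 : 0 < t ^ (-s) := by positivity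
    nlinarith
  -- the value of `x`
  have h8 : t ≤ T * m := by
    rcases le_total t 1 with h | h
    · rw [hm, min_eq_left h]
      nlinarith
    · rw [hm, min_eq_right h]
      linarith
  have hδval : δ = m ^ p / (1 + L) ^ p := by
    rw [hδdef]
    unfold dl
    rw [Real.div_rpow hm0.le (by positivity)]
  have h9 : m ^ (-(1 - s)) ≤ T ^ (s + 1) * (m ^ p * (t ^ (-s) * t⁻¹)) := by
    have h10 : t ^ (-s) * t⁻¹ = t ^ (-(s + 1)) := by
      rw [neg_add, Real.rpow_add ht, Real.rpow_neg_one]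
    have h11 : (T * m) ^ (-(s + 1)) ≤ t ^ (-(s + 1)) :=
      Real.rpow_le_rpow_of_nonpos ht h8 (by linarith)
    rw [h10]
    calc m ^ (-(1 - s)) = T ^ (s + 1) * (m ^ p * (T * m) ^ (-(s + 1))) := by
          rw [Real.mul_rpow (by positivity) hm0.le]
          have e1 : T ^ (s + 1) * (m ^ p * (T ^ (-(s + 1)) * m ^ (-(s + 1)))) =
              (T ^ (s + 1) * T ^ (-(s + 1))) * (m ^ p * m ^ (-(s + 1))) := by ring
          rw [e1, ← Real.rpow_add (by positivity), ← Real.rpow_add hm0, add_neg_cancel,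
            Real.rpow_zero, one_mul, hp]
          congr 1
          ring
      _ ≤ _ := by gcongr
  calc m ^ (-(1 - s)) ≤ T ^ (s + 1) * (m ^ p * (t ^ (-s) * t⁻¹)) := h9
    _ = 8 * (1 + L) ^ p * T ^ (s + 1) / s * (s * x / 2 * t ^ (-s)) := by
        rw [hx, hδval]
        have : (0 : ℝ) < (1 + L) ^ p := by positivity
        field_simp
        ring
    _ ≤ _ := by
        have : 0 ≤ 8 * (1 + L) ^ p * T ^ (s + 1) / s := by positivity
        exact mul_le_mul_of_nonneg_left h6 this

/-- a chain from `B` to `z` of cost at most `K` -/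
def Reach (E : Set ℂ) (B : Finset ℂ) (z : ℂ) (K : ℝ) : Prop := ∃ (N : ℕ) (c : ℕ → ℂ),
  ∑ j ∈ Finset.range (N + 1), (1 + Real.posLog (infDist (c j) E)⁻¹) ≤ K ∧
    c 0 ∈ B ∧ c N = z ∧ ∀ j < N, ‖c (j + 1) - c j‖ ≤ infDist (c j) E / 4

theorem Reach.base {E : Set ℂ} {B : Finset ℂ} {b : ℂ} (hb : b ∈ B) :
    Reach E B b (1 + Real.posLog (infDist b E)⁻¹) :=
  ⟨0, fun _ => b, by simp, hb, rfl, fun j hj => absurd hj (Nat.not_lt_zero j)⟩

theorem Reach.mono {E : Set ℂ} {B : Finset ℂ} {z : ℂ} {K K' : ℝ} (h : Reach E B z K)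
    (hK : K ≤ K') : Reach E B z K' := by
  obtain ⟨N, c, h1, h2⟩ := h
  exact ⟨N, c, h1.trans hK, h2⟩

theorem Reach.step {E : Set ℂ} {B : Finset ℂ} {z z' : ℂ} {K : ℝ} (h : Reach E B z' K)
    (hz : ‖z - z'‖ ≤ infDist z' E / 4) :
    Reach E B z (K + (1 + Real.posLog (infDist z E)⁻¹)) := by
  obtain ⟨N, c, h1, h2, h3, h4⟩ := h
  obtain ⟨c', e1, e2⟩ : ∃ c' : ℕ → ℂ, (∀ j, j ≤ N → c' j = c j) ∧ c' (N + 1) = z :=
    ⟨fun j => if j ≤ N then c j else z, fun j hj => if_pos hj, if_neg (by omega)⟩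
  refine ⟨N + 1, c', ?_, ?_, e2, ?_⟩
  · rw [Finset.sum_range_succ, e2]
    refine add_le_add (le_trans (le_of_eq ?_) h1) le_rfl
    refine Finset.sum_congr rfl fun j hj => ?_
    rw [Finset.mem_range] at hj
    rw [e1 j (by omega)]
  · rw [e1 0 (Nat.zero_le N)]
    exact h2
  · intro j hj
    rw [e1 j (by omega)]
    by_cases hjN : j = N
    · subst hjN
      rw [e2, h3]
      exact hz
    · rw [e1 (j + 1) (by omega)]
      exact h4 j (by omega)

/-- the base points -/
theorem exists_base {φ : ℝ → ℝ} {L α : ℝ} (hL : 0 ≤ L) (hα : 0 < α) (hα1 : α ≤ 1)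
    (hφ : ∀ s t : ℝ, |φ s - φ t| ≤ L * |s - t| ^ α) (r M R₀ T : ℝ)
    (hM : ∀ x : ℝ, |x| ≤ |r| → |φ x| ≤ M) (hT : 1 ≤ T) (hTM : R₀ < T - M) :
    ∃ (B : Finset ℂ) (K : ℝ), (∀ b ∈ B, b ∈ {b : ℂ | R₀ < ‖b‖} ∧ b ∉ Gr φ) ∧
      ∀ z : ℂ, |z.re| ≤ |r| → T ≤ |z.im - φ z.re| → |z.im - φ z.re| ≤ T + 1 →
        Reach (Gr φ) B z K := by
  have hc := cont hα hφ
  have hcl := gr_closed hc
  have hp : 0 < 1 / α := by positivity
  set S : Set ℂ := {z : ℂ | |z.re| ≤ |r| ∧ T ≤ |z.im - φ z.re| ∧ |z.im - φ z.re| ≤ T + 1} with hS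
  have hScomp : IsCompact S := by
    have hSc : IsClosed S := by
      have hf : Continuous fun z : ℂ => |z.im - φ z.re| :=
        continuous_abs.comp (Complex.continuous_im.sub (hc.comp Complex.continuous_re))
      refine (isClosed_le (continuous_abs.comp Complex.continuous_re) continuous_const).inter
        ((isClosed_le continuous_const hf).inter (isClosed_le hf continuous_const))
    refine Metric.isCompact_of_isClosed_isBounded hSc ?_
    refine (Metric.isBounded_iff_subset_closedBall (0 : ℂ)).2 ⟨|r| + (T + 1 + M), fun z hz => ?_⟩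
    obtain ⟨h1, -, h3⟩ := hz
    rw [mem_closedBall_zero_iff]
    refine (Complex.norm_le_abs_re_add_abs_im z).trans (add_le_add h1 ?_)
    have h4 : z.im = (z.im - φ z.re) + φ z.re := by ring
    rw [h4]
    exact (abs_add_le _ _).trans (add_le_add h3 (hM _ h1))
  set e := dl L (1 / α) 1 with he
  have he0 : 0 < e := dl_pos hL one_pos
  have hdS : ∀ z ∈ S, e ≤ infDist z (Gr φ) := by
    intro z hz
    exact (dl_mono hL hp zero_le_one (hT.trans hz.2.1)).trans (dist_low hL hα hα1 hφ z)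
  obtain ⟨t, htS, htf, hcov⟩ := hScomp.finite_cover_balls (e := e / 4) (by positivity)
  refine ⟨htf.toFinset, 2 * (1 + Real.posLog e⁻¹), ?_, ?_⟩
  · intro b hb
    have hbS := htS ((Set.Finite.mem_toFinset htf).1 hb)
    constructor
    · have h1 := hM _ hbS.1
      have h2 : |b.im - φ b.re| ≤ |b.im| + |φ b.re| := abs_sub _ _
      have h3 := Complex.abs_im_le_norm b
      have h4 := hbS.2.1
      show R₀ < ‖b‖
      linarith
    · rw [hcl.notMem_iff_infDist_pos (gr_nonempty φ)]
      exact he0.trans_le (hdS b hbS)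
  · intro z h1 h2 h3
    have hzS : z ∈ S := ⟨h1, h2, h3⟩
    obtain ⟨b, hb, hzb⟩ := Set.mem_iUnion₂.1 (hcov hzS)
    have hcost : ∀ w ∈ S, 1 + Real.posLog (infDist w (Gr φ))⁻¹ ≤ 1 + Real.posLog e⁻¹ := by
      intro w hw
      have h5 := hdS w hw
      have := Real.posLog_le_posLog (inv_nonneg.2 (he0.le.trans h5)) (inv_anti₀ he0 h5)
      linarith
    have h4 : Reach (Gr φ) htf.toFinset b (1 + Real.posLog (infDist b (Gr φ))⁻¹) :=
      Reach.base ((Set.Finite.mem_toFinset htf).2 hb)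
    have h5 : ‖z - b‖ ≤ infDist b (Gr φ) / 4 := by
      rw [← dist_eq_norm]
      have h6 := hdS b (htS hb)
      have h7 := mem_ball.1 hzb
      linarith
    refine (h4.step h5).mono ?_
    have h6 := hcost b (htS hb)
    have h7 := hcost z hzS
    linarith

/-- the chains -/
theorem chains {φ : ℝ → ℝ} {L α : ℝ} (hL : 0 ≤ L) (hα : 1 / 2 < α) (hα1 : α ≤ 1)
    (hφ : ∀ s t : ℝ, |φ s - φ t| ≤ L * |s - t| ^ α) (R₀ : ℝ) :
    QHg (Gr φ) {b : ℂ | R₀ < ‖b‖} (fun z => (min |z.im - φ z.re| 1) ^ (-(1 / α / 2))) := by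
  intro r
  have hα0 : 0 < α := by linarith
  have hc := cont hα0 hφ
  have hcl := gr_closed hc
  set p := 1 / α with hp
  have hp1 : 1 ≤ p := by rw [hp, le_div_iff₀ hα0]; linarith
  have hp2 : p < 2 := by rw [hp, div_lt_iff₀ hα0]; linarith
  have hp0 : 0 < p := by linarith
  set s := p / 2 with hs
  have hs0 : 0 < s := by positivity
  have hs1 : s < 1 := by rw [hs]; linarith
  obtain ⟨M, hM⟩ : ∃ M : ℝ, ∀ x : ℝ, |x| ≤ |r| → |φ x| ≤ M := by
    obtain ⟨M, hM⟩ := (isCompact_Icc (a := -|r|) (b := |r|)).exists_bound_of_continuousOn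
      hc.continuousOn
    exact ⟨M, fun x hx => hM x (abs_le.1 hx)⟩
  have hM0 : 0 ≤ M := (abs_nonneg _).trans (hM 0 (by simp))
  set T := |r| + M + |R₀| + 1 with hT
  have hT1 : 1 ≤ T := by
    have := abs_nonneg r
    have := abs_nonneg R₀
    linarith
  obtain ⟨B, K, hB, hK⟩ := exists_base hL hα0 hα1 hφ r M R₀ T hM hT1 (by
    have := abs_nonneg r
    have := le_abs_self R₀
    linarith)
  set C₃ := 1 + p * Real.log (1 + L) + p / (1 - s) with hC₃
  have hlog : 0 ≤ Real.log (1 + L) := Real.log_nonneg (by linarith)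
  have hs1' : 0 < 1 - s := by linarith
  have hC₃0 : 0 ≤ C₃ := by positivity
  set C₄ := 8 * (1 + L) ^ p * T ^ (s + 1) / s with hC₄
  have hC₄0 : 0 ≤ C₄ := by positivity
  refine ⟨B, max K (C₃ * C₄), hB, fun z hz hzE => ?_⟩
  -- the vertical line
  set h := |z.im - φ z.re| with hh
  have hne : z.im - φ z.re ≠ 0 := fun h0 => hzE (sub_eq_zero.1 h0)
  have hh0 : 0 < h := abs_pos.2 hne
  have hznorm : ‖z‖ < |r| := by
    rw [mem_ball_zero_iff] at hz
    exact hz.trans_le (le_abs_self r)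
  have hre : |z.re| ≤ |r| := (Complex.abs_re_le_norm z).trans hznorm.le
  have hhT : h ≤ T := by
    have h1 : h ≤ |z.im| + |φ z.re| := abs_sub _ _
    have h2 := hM _ hre
    have h3 := Complex.abs_im_le_norm z
    have := abs_nonneg R₀
    linarith
  obtain ⟨σ, hσ, hσh⟩ : ∃ σ : ℝ, |σ| = 1 ∧ z.im - φ z.re = σ * h := by
    rcases lt_or_gt_of_ne hne with h1 | h1
    · exact ⟨-1, by simp, by rw [hh, abs_of_neg h1]; ring⟩
    · exact ⟨1, by simp, by rw [hh, abs_of_pos h1]; ring⟩
  let w : ℝ → ℂ := fun t => ⟨z.re, φ z.re + σ * t⟩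
  have hwre : ∀ t, (w t).re = z.re := fun t => rfl
  have hwim : ∀ t, (w t).im = φ z.re + σ * t := fun t => rfl
  have hwh : ∀ t, 0 ≤ t → |(w t).im - φ (w t).re| = t := by
    intro t ht
    rw [hwre, hwim, add_sub_cancel_left, abs_mul, hσ, one_mul, abs_of_nonneg ht]
  have hwz : w h = z := by
    apply Complex.ext
    · rfl
    · rw [hwim, ← hσh]
      ring
  have hwd : ∀ t t', ‖w t - w t'‖ = |t - t'| := by
    intro t t'
    have h1 : w t - w t' = ((σ * (t - t') : ℝ) : ℂ) * Complex.I := by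
      apply Complex.ext
      · simp [w]
      · simp [w]
        ring
    rw [h1, norm_mul, Complex.norm_I, mul_one, Complex.norm_real, Real.norm_eq_abs, abs_mul, hσ,
      one_mul]
  have hwlow : ∀ t, 0 ≤ t → dl L p t ≤ infDist (w t) (Gr φ) := by
    intro t ht
    have h1 := dist_low hL hα0 hα1 hφ (w t)
    rwa [hwh t ht] at h1
  -- the induction
  have hδ0 : 0 < dl L p h := dl_pos hL hh0
  have key : ∀ n : ℕ, ∀ t : ℝ, h ≤ t → t ≤ T + 1 → T - t ≤ n * (dl L p h / 4) →
      Reach (Gr φ) B (w t) (K + C₃ * C₄ * t ^ (-s)) := by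
    intro n
    induction n with
    | zero =>
      intro t h1 h2 h3
      have ht0 : 0 < t := hh0.trans_le h1
      have h4 : T ≤ t := by
        rw [Nat.cast_zero, zero_mul] at h3
        linarith
      refine (hK (w t) (by rw [hwre]; exact hre) (by rw [hwh t ht0.le]; exact h4)
        (by rw [hwh t ht0.le]; exact h2)).mono ?_
      have : 0 ≤ C₃ * C₄ * t ^ (-s) := by positivity
      linarith
    | succ n ih =>
      intro t h1 h2 h3
      have ht0 : 0 < t := hh0.trans_le h1
      rcases le_or_gt T t with h4 | h4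
      · refine (hK (w t) (by rw [hwre]; exact hre) (by rw [hwh t ht0.le]; exact h4)
          (by rw [hwh t ht0.le]; exact h2)).mono ?_
        have : 0 ≤ C₃ * C₄ * t ^ (-s) := by positivity
        linarith
      · have hδt : 0 < dl L p t := dl_pos hL ht0
        have hδt1 : dl L p t ≤ 1 := (dl_le hL hp1 ht0.le).trans (min_le_right _ _)
        have hmono : dl L p h ≤ dl L p t := dl_mono hL hp0 hh0.le h1
        have h5 := ih (t + dl L p t / 4) (by linarith) (by linarith) (by
          push_cast at h3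
          linarith)
        have h6 : ‖w t - w (t + dl L p t / 4)‖ ≤ infDist (w (t + dl L p t / 4)) (Gr φ) / 4 := by
          rw [hwd]
          have h7 : t - (t + dl L p t / 4) = -(dl L p t / 4) := by ring
          rw [h7, abs_neg, abs_of_pos (by positivity)]
          have h8 : dl L p t ≤ dl L p (t + dl L p t / 4) := dl_mono hL hp0 ht0.le (by linarith)
          have h9 := hwlow (t + dl L p t / 4) (by linarith)
          linarith
        refine (h5.step h6).mono ?_
        have h7 := cost_le hL hp1 hs1' ht0 (hwlow t ht0.le)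
        have h8 := pot_le hL hs0 hs1.le (by rw [hs]; ring) hp1 hT1 ht0 h4.le
        have h9 : C₃ * (min t 1) ^ (-(1 - s)) ≤
            C₃ * (C₄ * (t ^ (-s) - (t + dl L p t / 4) ^ (-s))) :=
          mul_le_mul_of_nonneg_left h8 hC₃0
        have h10 : C₃ * (C₄ * (t ^ (-s) - (t + dl L p t / 4) ^ (-s))) =
            C₃ * C₄ * t ^ (-s) - C₃ * C₄ * (t + dl L p t / 4) ^ (-s) := by ring
        linarith
  obtain ⟨n, hn⟩ := exists_nat_ge ((T - h) / (dl L p h / 4))
  have hfin := key n h le_rfl (by linarith) (by rwa [div_le_iff₀ (by positivity)] at hn)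
  rw [hwz] at hfin
  have h1 : h ^ (-s) ≤ (min h 1) ^ (-s) :=
    Real.rpow_le_rpow_of_nonpos (lt_min hh0 one_pos) (min_le_left _ _) (by linarith)
  have h2 : K + C₃ * C₄ * h ^ (-s) ≤ max K (C₃ * C₄) * (1 + (min h 1) ^ (-s)) := by
    have h3 : K ≤ max K (C₃ * C₄) := le_max_left _ _
    have h4 : C₃ * C₄ ≤ max K (C₃ * C₄) := le_max_right _ _
    have h5 : 0 ≤ (min h 1) ^ (-s) := by positivity
    have h6 : C₃ * C₄ * h ^ (-s) ≤ max K (C₃ * C₄) * (min h 1) ^ (-s) := by
      have h7 : 0 ≤ max K (C₃ * C₄) := (mul_nonneg hC₃0 hC₄0).trans h4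
      exact mul_le_mul h4 h1 (by positivity) h7
    linarith
  obtain ⟨N, c, h3, h4, h5, h6⟩ := hfin.mono h2
  exact ⟨N, c, h3, h4, h5, h6⟩

/-- an integral over a disc of a function of the height above the graph -/
theorem lint_lt_top {φ : ℝ → ℝ} (hc : Continuous φ) (F : ℝ → ℝ≥0∞) (hF : Measurable F)
    (hF1 : ∀ R : ℝ, ∫⁻ t in Set.Icc (-R) R, F t < ⊤) (r : ℝ) :
    ∫⁻ z in ball (0 : ℂ) r, F (z.im - φ z.re) < ⊤ := by
  obtain ⟨M, hM⟩ : ∃ M : ℝ, ∀ x : ℝ, |x| ≤ |r| → |φ x| ≤ M := by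
    obtain ⟨M, hM⟩ := (isCompact_Icc (a := -|r|) (b := |r|)).exists_bound_of_continuousOn
      hc.continuousOn
    exact ⟨M, fun x hx => hM x (abs_le.1 hx)⟩
  set R := |r| + M with hR
  set I := Set.Icc (-|r|) |r| with hI
  set J := Set.Icc (-R) R with hJ
  let H : ℝ × ℝ → ℝ≥0∞ := fun w => I.indicator 1 w.1 * J.indicator F (w.2 - φ w.1)
  have hHm : Measurable H := by
    refine Measurable.mul ?_ ?_
    · exact (measurable_const.indicator measurableSet_Icc).comp measurable_fst
    · exact (hF.indicator measurableSet_Icc).comp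
        (measurable_snd.sub (hc.measurable.comp measurable_fst))
  have h1 : ∫⁻ z in ball (0 : ℂ) r, F (z.im - φ z.re) ≤
      ∫⁻ z : ℂ, H (Complex.measurableEquivRealProd z) := by
    rw [← lintegral_indicator measurableSet_ball]
    refine lintegral_mono fun z => ?_
    by_cases hz : z ∈ ball (0 : ℂ) r
    · rw [Set.indicator_of_mem hz]
      have hzn : ‖z‖ < |r| := by
        rw [mem_ball_zero_iff] at hz
        exact hz.trans_le (le_abs_self r)
      have hre : |z.re| ≤ |r| := (Complex.abs_re_le_norm z).trans hzn.le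
      have h2 : z.re ∈ I := abs_le.1 hre
      have h3 : z.im - φ z.re ∈ J := by
        refine abs_le.1 ((abs_sub _ _).trans ?_)
        exact add_le_add ((Complex.abs_im_le_norm z).trans hzn.le) (hM _ hre)
      show _ ≤ I.indicator 1 z.re * J.indicator F (z.im - φ z.re)
      rw [Set.indicator_of_mem h2, Set.indicator_of_mem h3, Pi.one_apply, one_mul]
    · rw [Set.indicator_of_notMem hz]
      exact bot_le
  refine h1.trans_lt ?_
  rw [Complex.volume_preserving_equiv_real_prod.lintegral_comp hHm, Measure.volume_eq_prod,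
    lintegral_prod _ hHm.aemeasurable]
  have h2 : ∀ x : ℝ, ∫⁻ y : ℝ, H (x, y) = I.indicator 1 x * ∫⁻ t in J, F t := by
    intro x
    show ∫⁻ y : ℝ, I.indicator 1 x * J.indicator F (y - φ x) = _
    rw [lintegral_const_mul, lintegral_sub_right_eq_self (J.indicator F) (φ x),
      lintegral_indicator measurableSet_Icc]
    exact (hF.indicator measurableSet_Icc).comp (measurable_id.sub measurable_const)
  simp only [h2]
  rw [lintegral_mul_const _ (measurable_one.indicator measurableSet_Icc),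
    lintegral_indicator_one measurableSet_Icc, Real.volume_Icc]
  exact ENNReal.mul_lt_top ENNReal.ofReal_lt_top (hF1 R)

/-- the integral in one variable -/
theorem one_dim {σ : ℝ} (hσ0 : 0 < σ) (hσ : σ < 1) (R : ℝ) :
    ∫⁻ t in Set.Icc (-R) R, ENNReal.ofReal ((min |t| 1) ^ (-σ)) < ⊤ := by
  rcases lt_or_ge R 0 with hR | hR
  · rw [Set.Icc_eq_empty (by linarith)]
    simp
  have h0 : IntegrableOn (fun t : ℝ => |t| ^ (-σ)) (Set.Ioc 0 R) := by
    have h1 := (intervalIntegral.intervalIntegrable_rpow' (a := 0) (b := R)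
      (by linarith : -1 < -σ)).1
    refine h1.congr_fun (fun t ht => ?_) measurableSet_Ioc
    simp only
    rw [abs_of_pos ht.1]
  have h1 : IntegrableOn (fun t : ℝ => |t| ^ (-σ)) (Set.Ico (-R) 0) := by
    have h2 := ((Measure.measurePreserving_neg (volume : Measure ℝ)).integrableOn_comp_preimage
      (MeasurableEquiv.neg ℝ).measurableEmbedding (f := fun t : ℝ => |t| ^ (-σ))
      (s := Set.Ioc 0 R)).2 h0
    have h3 : (Neg.neg : ℝ → ℝ) ⁻¹' Set.Ioc 0 R = Set.Ico (-R) 0 := by
      ext t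
      simp only [Set.mem_preimage, Set.mem_Ioc, Set.mem_Ico]
      constructor <;> rintro ⟨h4, h5⟩ <;> constructor <;> linarith
    rw [h3] at h2
    refine h2.congr_fun (fun t _ => ?_) measurableSet_Ico
    simp
  have h2 : IntegrableOn (fun t : ℝ => |t| ^ (-σ)) (Set.Icc (-R) R) := by
    have h3 : Set.Icc (-R) R = Set.Ico (-R) 0 ∪ ({0} ∪ Set.Ioc 0 R) := by
      ext t
      simp only [Set.mem_Icc, Set.mem_union, Set.mem_Ico, Set.mem_singleton_iff, Set.mem_Ioc]
      constructor
      · rintro ⟨h4, h5⟩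
        rcases lt_trichotomy t 0 with h | h | h
        · exact Or.inl ⟨h4, h⟩
        · exact Or.inr (Or.inl h)
        · exact Or.inr (Or.inr ⟨h, h5⟩)
      · rintro (⟨h4, h5⟩ | h4 | ⟨h4, h5⟩)
        · exact ⟨h4, by linarith⟩
        · rw [h4]; exact ⟨by linarith, hR⟩
        · exact ⟨by linarith, h5⟩
    rw [h3]
    exact h1.union ((integrableOn_singleton (by simp) (by rw [Real.volume_singleton]; exact ENNReal.zero_lt_top)).union h0)
  have h3 : IntegrableOn (fun t : ℝ => 1 + |t| ^ (-σ)) (Set.Icc (-R) R) :=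
    (integrableOn_const (by simp)).add h2
  have hm : Measurable fun t : ℝ => (min |t| 1) ^ (-σ) :=
    ((continuous_abs.measurable).min measurable_const).pow_const _
  have h4 : IntegrableOn (fun t : ℝ => (min |t| 1) ^ (-σ)) (Set.Icc (-R) R) := by
    refine Integrable.mono' h3 hm.aestronglyMeasurable (Filter.Eventually.of_forall fun t => ?_)
    have h5 : 0 ≤ (min |t| 1) ^ (-σ) := Real.rpow_nonneg (le_min (abs_nonneg t) zero_le_one) _
    rw [Real.norm_eq_abs, abs_of_nonneg h5]
    rcases le_total |t| 1 with h | h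
    · rw [min_eq_left h]
      linarith
    · rw [min_eq_right h, Real.one_rpow]
      have := Real.rpow_nonneg (abs_nonneg t) (-σ)
      linarith
  have h5 := h4.2
  rw [hasFiniteIntegral_iff_ofReal (Filter.Eventually.of_forall fun t =>
    Real.rpow_nonneg (le_min (abs_nonneg t) zero_le_one) _)] at h5
  exact h5

end GraphAux

open GraphAux in
/-- **P_graph.** -/
theorem p_graph : P_graph := by
  intro φ L α hα hα1 hφ
  have hα0 : 0 < α := by linarith
  have hL : 0 ≤ L := by
    have h := (abs_nonneg _).trans (hφ 0 1)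
    norm_num at h
    exact h
  have hc := cont hα0 hφ
  have hcl := gr_closed hc
  refine ⟨hcl, gr_null hc, ?_⟩
  set p := 1 / α with hp
  have hp1 : 1 ≤ p := by rw [hp, le_div_iff₀ hα0]; linarith
  have hp2 : p < 2 := by rw [hp, div_lt_iff₀ hα0]; linarith
  have hp0 : 0 < p := by linarith
  set s := p / 2 with hs
  have hs0 : 0 < s := by positivity
  have hs1 : s < 1 := by rw [hs]; linarith
  set q := (1 + 1 / s) / 2 with hq
  have hq1 : 1 < q := by
    have : 1 < 1 / s := by rw [lt_div_iff₀ hs0]; linarith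
    rw [hq]
    linarith
  have hsq : s * q < 1 := by
    have h1 : s * q = (s + 1) / 2 := by
      rw [hq]
      field_simp
    rw [h1]
    linarith
  let g : ℂ → ℝ := fun z => (min |z.im - φ z.re| 1) ^ (-s)
  have hgdef : ∀ z, g z = (min |z.im - φ z.re| 1) ^ (-s) := fun z => rfl
  have hmin : ∀ z : ℂ, 0 ≤ min |z.im - φ z.re| 1 := fun z => le_min (abs_nonneg _) zero_le_one
  have hg0 : ∀ z, 0 ≤ g z := fun z => Real.rpow_nonneg (hmin z) _
  have hgm : Measurable g := by
    have h1 : Continuous fun z : ℂ => min |z.im - φ z.re| 1 :=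
      (continuous_abs.comp (Complex.continuous_im.sub (hc.comp Complex.continuous_re))).min
        continuous_const
    exact h1.measurable.pow_const _
  have hgi : ∀ r : ℝ, IntegrableOn (fun z : ℂ => g z ^ q) (ball (0 : ℂ) r) := by
    intro r
    refine ⟨(hgm.pow_const q).aestronglyMeasurable, ?_⟩
    rw [hasFiniteIntegral_iff_ofReal (Filter.Eventually.of_forall fun z =>
      Real.rpow_nonneg (hg0 z) _)]
    have h1 := lint_lt_top hc (fun t => ENNReal.ofReal ((min |t| 1) ^ (-(s * q))))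
      (((continuous_abs.measurable).min measurable_const).pow_const _).ennreal_ofReal
      (one_dim (by positivity) hsq) r
    refine lt_of_le_of_lt (le_of_eq ?_) h1
    refine lintegral_congr fun z => ?_
    rw [hgdef, ← Real.rpow_mul (hmin z), neg_mul]
  refine ⟨q, g, hq1, hgm, hg0, hgi, ?_, fun R₀ => chains hL hα hα1 hφ R₀⟩
  intro r
  set C := 1 + p * Real.log (1 + L) + p / s with hC
  have hlog : 0 ≤ Real.log (1 + L) := Real.log_nonneg (by linarith)
  have hC0 : 0 ≤ C := by positivity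
  have hbound : ∀ z : ℂ, Real.posLog (infDist z (Gr φ))⁻¹ ≤ C * g z := by
    intro z
    by_cases hz : z ∈ Gr φ
    · rw [infDist_zero_of_mem hz, inv_zero, Real.posLog_zero]
      exact mul_nonneg hC0 (hg0 z)
    · have hne : z.im - φ z.re ≠ 0 := fun h0 => hz (sub_eq_zero.1 h0)
      have h1 := cost_le hL hp1 hs0 (abs_pos.2 hne) (dist_low hL hα0 hα1 hφ z)
      rw [← hgdef] at h1
      linarith
  have hm : Measurable fun z : ℂ => (Real.posLog (infDist z (Gr φ))⁻¹) ^ q := by
    refine Measurable.pow_const ?_ _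
    exact Real.continuous_posLog.measurable.comp (continuous_infDist_pt _).measurable.inv
  refine Integrable.mono' ((hgi r).const_mul (C ^ q)) hm.aestronglyMeasurable
    (Filter.Eventually.of_forall fun z => ?_)
  have h1 : 0 ≤ Real.posLog (infDist z (Gr φ))⁻¹ := Real.posLog_nonneg
  show ‖(Real.posLog (infDist z (Gr φ))⁻¹) ^ q‖ ≤ C ^ q * g z ^ q
  rw [Real.norm_eq_abs, abs_of_nonneg (Real.rpow_nonneg h1 _), ← Real.mul_rpow hC0 (hg0 z)]
  exact Real.rpow_le_rpow h1 (hbound z) (by linarith)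

end Pool.Agent.H295.LL
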